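import Pool.Agent.R532.Wd2

/-!
# Mean square of the representation numbers by `k` `k`-th powers with generic real coefficients
-/

set_option autoImplicit false

namespace Pool.Agent.Results.MP_df17e9_nt.GenericCoefficients

open MeasureTheory Filter Finset

/-- the number of the `x` with positive entries and `⌊∑ l i * x i ^ k⌋ = n` -/
noncomputable def repCount (k : ℕ) (l : Fin k → ℝ) (n : ℕ) : ℕ :=
  {x : Fin k → ℕ | (∀ i, 0 < x i) ∧ ⌊∑ i, l i * (x i : ℝ) ^ k⌋₊ = n}.ncard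

theorem result (k : ℕ) (hk : 2 ≤ k) :
    ∀ᵐ l ∂((volume : Measure (Fin k → ℝ)).restrict (Set.univ.pi fun _ => Set.Icc (1 : ℝ) 2)),
      ∀ ε : ℝ, 0 < ε → ∀ᶠ Y : ℝ in atTop,
        ((∑ n ∈ Icc 1 ⌊Y⌋₊, repCount k l n ^ 2 : ℕ) : ℝ) < Y ^ (1 + ε) :=
  Pool.Agent.R532.Wa.mean_sq k hk

end Pool.Agent.Results.MP_df17e9_nt.GenericCoefficients
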